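import Pool.Agent.U524.SN.PA

/-!
# Large values of quantum ergodic eigenfunctions of planar domains (MP_6b977f_mp)

The setting is that of the files `ErgodicLimits` and `DirectionPairs`; the definitions are in
`Pool.Agent.N661.BR.Defs`. The `u n` are arbitrary quantum ergodic solutions of `Δu + λ_n u = 0` on a
bounded open set `Ω`, `λ_n → ∞`.

For the random wave `f(0)` is unbounded. The theorem gives lower bounds for the large values of `u n`
and of the limit points.
(1) Let `M > 0`. If the area of `{|u n| > M}` is small, then the truncated mass `∫ min(u², M²)` is at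
most `(M²/2 + ε) |Ω|`. (So `liminf area {|u n| > M} > 0` for every `M < √2` if no mass is lost in the
limit, that is, if the squares of the `u n` are uniformly integrable.) Nothing is assumed about the
limits; plane waves attain the constant.
(2) Let `μ` be a limit point of the local measures and `μ = ∫ κ_s dP(s)`, `κ_s` translation invariant
and ergodic with covariance `m_s cov ν_s`; `m_s` is the local mass and `ν_s` the law of the direction
of the momentum. Then for almost every `s` the essential supremum of `f(0)²` for the law `κ_s` is at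
least `m_s (4 - 2 parallel ν_s)`: twice the local mass for a plane wave, and four times the local mass
if there are no plane waves in `κ_s`.
(3) If no mass is lost and there are no plane waves (`parallel ν_s = 0` almost surely), then for every
finite linear combination `ℓ` of values of `f` the essential supremum of `ℓ²` for almost every `κ_s`
is at least four times the variance of `ℓ` for the random wave; and for `M² < 4 Var ℓ` the area of
`{|ℓ(u)| > M}` is bounded below along the subsequence, where `ℓ(u)` is the same linear combination of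
the values of `u n` at the scale of the wavelength. In particular `|u n| > M` with a positive proportion,
for every `M < 2`.

Proof. Let `f` be a bounded wave, `|f| ≤ M` on the whole plane. Then `|∇f|² ≤ M² - f²` everywhere
(maximum principle for the square of the gradient of `arcsin (f / M')`, with Bochner's formula; also a
consequence of the inequality of Duffin and Schaeffer for functions of exponential type). For a
translation invariant law multiply by `f^(2j)` and take expectations:
`(2j+1) E f^(2j) |∇f|² = E f^(2j+2)` by integration by parts, so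
`(2j+2) E f^(2j+2) ≤ (2j+1) M² E f^(2j)`. For `j = 0` this gives (1), with the compactness theorem for
the local measures (library of the file `SignBalance`). For `j = 1` it is compared with the formula
`E f(0)⁴ = m_s² (3 - (3/2) parallel ν_s)` for the components of limits of quantum ergodic sequences
(starting file `DirectionPairs`), and, in (3), with the Gaussian four point functions of the components
without plane waves.
-/

set_option autoImplicit false
open MeasureTheory Filter Topology ProbabilityTheory
open scoped ContDiff ENNReal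

namespace Pool.Agent.Results.MP_6b977f_mp.LargeValues

open Pool.Agent.W745.RW (lap)
open Pool.Agent.N661.BR

noncomputable section

/-- the local measures of `u (σ n)` converge to `μ`, in the sense of convergence of all finite
dimensional distributions (stated in terms of characteristic functions) -/
def ConvergesAlong (σ : ℕ → ℕ) (χ : ℝ → ℝ) (Ω : Set ℂ) (lam : ℕ → ℝ) (u : ℕ → ℂ → ℝ)
    (μ : Measure MW) : Prop :=
  StrictMono σ ∧ ∀ (k : ℕ) (w : Fin k → ℂ) (t : Fin k → ℝ),
    Tendsto (fun n => (1 / volume.real Ω : ℝ) * ∫ z in Ω,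
      Complex.exp (Complex.I *
        ((∑ j, t j * resc χ Ω (lam (σ n)) (u (σ n)) z (w j) : ℝ) : ℂ))) atTop
      (𝓝 (∫ f, Complex.exp (Complex.I * (lin w t f : ℝ)) ∂μ))

/-- the value at `z` of the finite linear combination `∑ t_j u (z + w_j / √λ)` of values of `u` at the
scale of the wavelength, with the cutoff `χ` of the definition of the local measures -/
def comb {k : ℕ} (χ : ℝ → ℝ) (Ω : Set ℂ) (lam : ℝ) (u : ℂ → ℝ) (w : Fin k → ℂ)
    (t : Fin k → ℝ) (z : ℂ) : ℝ := ∑ j, t j * resc χ Ω lam u z (w j)

/-- the variance of `∑ t_j f (w_j)` for the isotropic random wave -/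
def variance {k : ℕ} (w : Fin k → ℂ) (t : Fin k → ℝ) : ℝ := ∑ i, ∑ j, t i * t j * J0 ‖w i - w j‖

/-- **Result.** See the head of the file. -/
theorem result (Ω : Set ℂ) (hΩ : IsOpen Ω) (hb : Bornology.IsBounded Ω) (hne : Ω.Nonempty)
    (lam : ℕ → ℝ) (hpos : ∀ n, 0 < lam n) (hlam : Tendsto lam atTop atTop)
    (u : ℕ → ℂ → ℝ) (hu : ∀ n, ContDiffOn ℝ ∞ (u n) Ω)
    (heq : ∀ n, ∀ z ∈ Ω, lap (u n) z + lam n * u n z = 0) (hqe : IsQuantumErgodic Ω lam u) :
    -- (1) the truncated mass
    (∀ M ε : ℝ, 0 < ε → ∃ δ : ℝ, 0 < δ ∧ ∀ᶠ n in atTop,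
      volume.real {z | z ∈ Ω ∧ M < |u n z|} ≤ δ →
        ∫ z in Ω, min (u n z ^ 2) (M ^ 2) ≤ (M ^ 2 / 2 + ε) * volume.real Ω) ∧
    ∀ χ : ℝ → ℝ, IsCutoff χ → ∀ (σ : ℕ → ℕ) (μ : Measure MW), IsProbabilityMeasure μ →
      ConvergesAlong σ χ Ω lam u μ →
      ∀ (S : Type) (_ : MeasurableSpace S) (P : Measure S) (_ : IsProbabilityMeasure P)
        (κ : Kernel S MW) (_ : IsMarkovKernel κ) (m : S → ℝ) (ν : Kernel S ℝ)
        (_ : IsMarkovKernel ν), P.bind κ = μ →
        (∀ᵐ s ∂P, IsStationary (κ s) ∧ IsErgodic (κ s)) →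
        (∀ᵐ s ∂P, ∀ w w' : ℂ, ∫ f : MW, f w * f w' ∂(κ s) = m s * cov (ν s) (w - w')) →
        -- (2) the components of the limit points
        (∀ᵐ s ∂P, ∀ M : ℝ, (∀ᵐ f : MW ∂(κ s), |f 0| ≤ M) →
          m s * (4 - 2 * parallel (ν s)) ≤ M ^ 2) ∧
        -- (3) no plane waves
        (∫ f : MW, f 0 ^ 2 ∂μ = 1 → (∀ᵐ s ∂P, parallel (ν s) = 0) →
          ∀ (k : ℕ) (w : Fin k → ℂ) (t : Fin k → ℝ) (M : ℝ), M ^ 2 < 4 * variance w t →
            (∀ᵐ s ∂P, 0 < κ s {f | M < |lin w t f|}) ∧
            ∃ c : ℝ, 0 < c ∧ ∀ᶠ n in atTop, c ≤ volume.real {z | z ∈ Ω ∧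
              M < |comb χ Ω (lam (σ n)) (u (σ n)) w t z|}) := by
  refine ⟨fun M ε hε => Pool.Agent.U524.SN.qe_trunc hΩ hb hne hpos hlam hu heq hqe M hε, ?_⟩
  intro χ hχ σ μ hμp hμ S _ P hP κ hκp m ν hνp hκ herg hν
  obtain ⟨h1, h2, _⟩ := limit_all hΩ hb hne hpos hlam hu heq hqe hχ hμp ⟨σ, hμ⟩
  refine ⟨Pool.Agent.U524.SN.comp_sup h1 h2 hκ m ν herg hν, ?_⟩
  intro hvar hpar k w t M hM
  have h3 := ergodic_case3 h1 hvar hκ m ν (by
    filter_upwards [hpar, hν] with s a b
    exact ⟨inferInstance, a, b⟩) herg
  have h4 : ∀ᵐ s ∂P, 0 < κ s {f | M < |lin w t f|} := by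
    filter_upwards [h3, herg] with s hs hs1
    exact Pool.Agent.U524.SN.good_large hs1.1 hs.1 w t hM
  refine ⟨h4, ?_⟩
  have hA : MeasurableSet {f : MW | M < |lin w t f|} :=
    measurableSet_lt measurable_const (measurable_norm.comp (Pool.Agent.U26.SB.lin_meas w t))
  have h5 : 0 < μ {f : MW | M < |lin w t f|} := by
    rw [← hκ, Measure.bind_apply hA κ.measurable.aemeasurable, pos_iff_ne_zero]
    intro h0
    rw [lintegral_eq_zero_iff (κ.measurable_coe hA)] at h0
    obtain ⟨s, hs1, hs2⟩ := (h4.and h0).exists
    exact hs1.ne' hs2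
  have h6 := Pool.Agent.U524.SN.area_lin (G := {x : ℝ | M < |x|}) hΩ hb hne hχ hpos hu hμ.2 w t
    (isOpen_lt continuous_const continuous_abs) h5
  exact h6

end

end Pool.Agent.Results.MP_6b977f_mp.LargeValues
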