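import Pool.Agent.U389.ZL.F

/-!
# The oscillation of quantum ergodic eigenfunctions on lines (MP_6b977f_mp)

The setting is that of the files `ErgodicLimits`, `DirectionPairs` and `SignBalance`; the definitions of
the local measures, of their limit points and of quantum ergodicity are in `Pool.Agent.N661.BR.Defs`,
those of `Alt`, `diffPoly`, `onLine` and `zeroCount` in `Pool.Agent.U389.ZL.A2` and
`Pool.Agent.U389.ZL.Defs`. The `u n` are arbitrary quantum ergodic solutions of `Δu + λ_n u = 0` on a
bounded open set `Ω`, `λ_n → ∞`; nothing is assumed about their limits, and loss of mass in the limit is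
allowed.

Look at `u n` at the points `z + s_i v / √λ_n`, `s_0 < s_1 < … < s_K`, of a segment at the scale of the
wavelength, where `v` is a unit vector, and count how often it passes from above `c + ε` to below
`c - ε` or back: the number of these alternations is the largest `m` such that
`Alt c ε (fun i => u n (z + s_i v / √λ_n)) m`. The sum over `m ≥ 1` of the areas of the sets of the `z`
with at least `m` alternations is the integral of the number of alternations over `Ω`. Part (1) says
that its mean value over `z` is at most `(s_K - s_0) / π + η` for all large `n`, for every level `c`, all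
`ε > 0`, `η > 0` and any number of points: quantum ergodic eigenfunctions oscillate, on lines, at
most once per half wavelength on average, as the plane wave `sin (√λ x)` in its own direction. For
example (two points) the area of the set of the `z` for which `u n z` and `u n (z + s v / √λ_n)` lie at
different sides of the level `c`, at distance at least `ε`, is at most `(s / π + η) |Ω|`. Part (2) is
the same for arbitrary finite linear combinations of values of `u n` at the scale of the wavelength.
Part (3) is about the limit points `μ` of the local measures: for every polynomial `H` of degree `m` in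
finitely many partial derivatives of `f`, of arbitrary orders, and every line, the mean number of
zeros of `H` on a segment of length `r` of the line, on the event that `f` is in a translation invariant
set and `H` does not vanish on the line, is at most `m r / π` times the probability of this event.
(For the random wave of the conjecture the density of the zeros of `f` on lines is `1 / (π √2)`.)

Proof idea. The limit points are stationary with finite second moment (library of this problem), so the
sharp bound for zeros of stationary waves on lines of `MP_4fa179_mp.ZerosOnLines` (Jensen's formula on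
large discs and stationarity) gives (3). Let `N` be the number of alternations of `f` along the
points `s_i v`; each alternation contains a zero of `f - c`, so the mean of `N` with respect to `μ` is at
most `(s_K - s_0) / π`. The sets `{N ≥ m}` are closed conditions on finitely many values, so their
probabilities are upper semicontinuous; every subsequence of the `u n` has a subsequence whose local
measures converge (library of this problem), which gives (2), and (1) as the area of the boundary
layer of width `C / √λ_n` tends to zero.
-/

set_option autoImplicit false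
open MeasureTheory Filter Topology Complex
open scoped ContDiff

namespace Pool.Agent.Results.MP_6b977f_mp.OscillationOnLines

open Pool.Agent.W745.RW (lap)
open Pool.Agent.N661.BR
open Pool.Agent.U389.ZL (Alt onLine zeroCount)

/-- the value at `z` of the finite linear combination `∑ t_j u (z + (w_j + y) / √λ)` of values of `u` at
the scale of the wavelength, with the cutoff `χ` of the definition of the local measures -/
noncomputable def comb {k : ℕ} (χ : ℝ → ℝ) (Ω : Set ℂ) (lam : ℝ) (u : ℂ → ℝ) (w : Fin k → ℂ)
    (t : Fin k → ℝ) (z y : ℂ) : ℝ := ∑ j, t j * resc χ Ω lam u z (w j + y)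

/-- **Result.** Let `Ω` be a bounded nonempty open set and let `u n` be real solutions of
`Δu + λ_n u = 0` in `Ω`, `λ_n → ∞`, which are quantum ergodic in the unit cotangent bundle over `Ω`.
(1) For all unit vectors `v`, all real `s_0 < … < s_K`, all `c` and all `ε, η > 0` the following holds
for all large `n`: the sum over `m = 1, …, K` of the areas of the sets of the `z ∈ Ω` for which the
sequence `u n (z + s_i v / √λ_n)`, `i = 0, …, K`, has a subsequence of `m + 1` terms alternately above
`c + ε` and below `c - ε`, is at most `((s_K - s_0) / π + η) |Ω|`.
(2) The same is true for the finite linear combinations `comb` of values of `u n`.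
(3) Let `μ` be a limit point of the local measures. For every polynomial `H = Q(f, ∂f, …)` of degree `m`
in the partial derivatives, every line `x + ℝ v`, `|v| = 1`, `r > 0` and every measurable set `I` of
functions which is invariant under the translations along `v`, the mean number of zeros of `H` on
`{x + t v : 0 ≤ t < r}`, on the event that `f ∈ I` and `H` is not identically zero on the line, is at
most `m r / π` times the probability of this event (the numbers of zeros and the event that `H` is not
identically zero on the line are measurable). -/
theorem result (Ω : Set ℂ) (hΩ : IsOpen Ω) (hb : Bornology.IsBounded Ω) (hne : Ω.Nonempty)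
    (lam : ℕ → ℝ) (hpos : ∀ n, 0 < lam n) (hlam : Tendsto lam atTop atTop)
    (u : ℕ → ℂ → ℝ) (hu : ∀ n, ContDiffOn ℝ ∞ (u n) Ω)
    (heq : ∀ n, ∀ z ∈ Ω, lap (u n) z + lam n * u n z = 0) (hqe : IsQuantumErgodic Ω lam u) :
    (∀ v : ℂ, ‖v‖ = 1 → ∀ (K : ℕ) (s : Fin (K + 1) → ℝ), StrictMono s →
      ∀ c ε η : ℝ, 0 < ε → 0 < η → ∀ᶠ n in atTop,
        ∑ m ∈ Finset.Icc 1 K, volume.real {z | z ∈ Ω ∧
          Alt c ε (fun i => u n (z + s i * v / (√(lam n) : ℝ))) m} ≤
        ((s (Fin.last K) - s 0) / Real.pi + η) * volume.real Ω) ∧
    ∀ χ : ℝ → ℝ, IsCutoff χ →
      (∀ (k : ℕ) (w : Fin k → ℂ) (t : Fin k → ℝ) (v : ℂ), ‖v‖ = 1 →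
        ∀ (K : ℕ) (s : Fin (K + 1) → ℝ), StrictMono s →
        ∀ c ε η : ℝ, 0 < ε → 0 < η → ∀ᶠ n in atTop,
          ∑ m ∈ Finset.Icc 1 K, volume.real {z | z ∈ Ω ∧
            Alt c ε (fun i => comb χ Ω (lam n) (u n) w t z (s i * v)) m} ≤
          ((s (Fin.last K) - s 0) / Real.pi + η) * volume.real Ω) ∧
      ∀ μ : Measure MW, IsProbabilityMeasure μ → IsLocalLimit χ Ω lam u μ →
        ∀ (Q : MvPolynomial (List (Fin 2)) ℝ) (x v : ℂ), ‖v‖ = 1 → ∀ r : ℝ, 0 < r →
          Measurable (fun f : MW => zeroCount (onLine Q f x v) r) ∧
          MeasurableSet {f : MW | ∃ t : ℝ, onLine Q f x v t ≠ 0} ∧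
          ∀ I : Set (ℂ → ℝ), MeasurableSet I →
            (∀ (t : ℝ) (f : ℂ → ℝ), (fun z => f (z + t * v)) ∈ I ↔ f ∈ I) →
            ∫⁻ f in {f : MW | f.1 ∈ I ∧ ∃ t : ℝ, onLine Q f x v t ≠ 0},
              zeroCount (onLine Q f x v) r ∂μ ≤
            ENNReal.ofReal (Q.totalDegree * r / Real.pi) *
              μ {f : MW | f.1 ∈ I ∧ ∃ t : ℝ, onLine Q f x v t ≠ 0} := by
  refine ⟨fun v hv K s hs c ε η hε hη => Pool.Agent.U389.ZL.planarAlt_pt Pool.Agent.U26.SG.pl
    hΩ hb hne hpos hlam hu heq hqe hv.le hs c hε hη, fun χ hχ =>
    ⟨fun k w t v hv K s hs c ε η hε hη => Pool.Agent.U389.ZL.planarAlt Pool.Agent.U26.SG.pl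
      hΩ hb hne hpos hlam hu heq hqe hχ w t hv.le hs c hε hη,
    fun μ hp hμ Q x v hv r hr => ?_⟩⟩
  obtain ⟨hst, h2⟩ := Pool.Agent.U389.ZL.lim_data hΩ hb hne hpos hlam hu heq hqe hχ hμ
  obtain ⟨k1, k2, -⟩ := Pool.Agent.U389.ZL.main3 hst h2 Q x hv.le hr (I := Set.univ)
    MeasurableSet.univ (fun t f => by simp)
  exact ⟨k1, k2, fun I mI hI => (Pool.Agent.U389.ZL.main3 hst h2 Q x hv.le hr mI hI).2.2⟩

end Pool.Agent.Results.MP_6b977f_mp.OscillationOnLines
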