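import Pool.Agent.U26.SG.Pt
import Pool.Agent.U26.SG.Pt2

/-!
# The signs of eigenfunctions of planar domains (MP_6b977f_mp)

The setting is that of the files `ErgodicLimits` and `DirectionPairs`; the definitions are in
`Pool.Agent.N661.BR.Defs`. The `u n` are arbitrary solutions of `Δu + λ_n u = 0` on a bounded open
set `Ω`, `λ_n → ∞`, which are bounded in `L²(Ω)`: for instance normalised eigenfunctions, with any
boundary condition. Quantum ergodicity is not assumed (it may be assumed instead of the bound for the
norms), and nothing is assumed about the limits of the `u n`.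

For the random wave every linear combination of values is symmetric about `0`. The theorem says that
for every such sequence both signs have a proportion which is bounded below by a universal
constant, `c = (2√3 - 3)/3 = 0.1547...`: for every `ε > 0` and all large `n` the area of `{u > 0}` is at
least `c` times the area of `{|u| ≥ ε}`, minus `ε |Ω|`; similarly for `{u < 0}`, and for the linear
combinations of values of `u` at the scale of the wavelength. For the limit points `μ` of the local
measures: for every finite linear combination `ℓ` of values of `f` and every translation invariant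
event `A`, `μ(A ∩ {ℓ > 0})` and `μ(A ∩ {ℓ < 0})` are at least `c μ(A ∩ {ℓ ≠ 0})` (so that the same is
true for the ergodic components of `μ`); and for `R → ∞` the function `ℓ(f(· + y))` of `y` is positive
on a proportion of at least `c - ε` of the disc of radius `R`, and negative on such a proportion, for
`μ`-almost all of the `f` for which it is not identically zero. Loss of mass in the limit,
concentration and plane waves are allowed.

Proof idea. Every subsequence of the `u n` has a subsequence whose local measures converge, to a
translation invariant law `μ` on `MW` with a finite second moment; this is proved here by a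
compactness theorem for the laws of the Taylor coefficients of the rescaled functions. Consider the
conditional expectations with respect to the σ-algebra `I` of invariant events. The space is
exhausted, up to a `μ`-null set, by invariant events on which `E[f(0)² | I]` is bounded. On such an
event `f(0)` has a finite fourth moment (the squared Fourier coefficients of `f` on circles are close
in `L²` to invariant functions, by the mean ergodic theorem and an identity for waves).
`E[f(0) | I] = 0` (a translation invariant law on `MW` has mean zero, as the mean is a constant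
solution of `Δf + f = 0`), and `E[f(0)⁴ | I] ≤ 3 E[f(0)² | I]²`: the conditional two point functions
are almost surely those of one law of directions (martingale convergence along finite partitions, and
compactness), and then the fourth moment is computed as in the library of this problem for ergodic
laws. For a centred random variable with `E X⁴ ≤ 3 (E X²)²` one has `P(X > 0) ≥ c`: integrate a
polynomial `a t + b t² - d t⁴` which is at most `1` for `t > 0` and at most `0` for `t ≤ 0` (He, Zhang,
Zhang); this is applied conditionally, to the translation invariant law of the wave `ℓ(f(· + y))`.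
The statement for large discs follows from the ergodic theorem.

Parts of the proof are due to helpers 55, 88, 123, 319, 346, 364, 402, 433, 458, 571, 606, 688, 867,
876, 882 and 934.
-/

set_option autoImplicit false
open MeasureTheory Filter Topology Complex ProbabilityTheory
open scoped ContDiff

namespace Pool.Agent.Results.MP_6b977f_mp.SignBalance

open Pool.Agent.W745.RW (lap)
open Pool.Agent.N661.BR

/-- the constant `c = (2√3 - 3)/3 = 0.1547...` -/
noncomputable def c : ℝ := (2 * √3 - 3) / 3

/-- the proportion of the disc `{R z : ‖z‖ ≤ 1}` of radius `R` on which `g` is positive -/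
noncomputable def pos (R : ℝ) (g : ℂ → ℝ) : ℝ :=
  volume.real {z : ℂ | ‖z‖ ≤ 1 ∧ 0 < g (R * z)} / Real.pi

/-- the value at `z` of the finite linear combination `∑ t_j u (z + w_j / √λ)` of values of `u` at the
scale of the wavelength, with the cutoff `χ` of the definition of the local measures -/
noncomputable def comb {k : ℕ} (χ : ℝ → ℝ) (Ω : Set ℂ) (lam : ℝ) (u : ℂ → ℝ) (w : Fin k → ℂ)
    (t : Fin k → ℝ) (z : ℂ) : ℝ := ∑ j, t j * resc χ Ω lam u z (w j)

/-- the `u n` are bounded in `L²(Ω)` -/
def BddL2 (Ω : Set ℂ) (u : ℕ → ℂ → ℝ) : Prop :=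
  ∃ C : ℝ, ∀ n, IntegrableOn (fun z => u n z ^ 2) Ω ∧ ∫ z in Ω, u n z ^ 2 ≤ C

/-- **Result.** Let `Ω` be a bounded nonempty open set and let `u n` be real solutions of
`Δu + λ_n u = 0` in `Ω`, `λ_n → ∞`, which are bounded in `L²(Ω)`, or quantum ergodic in the unit
cotangent bundle over `Ω`. Let `c = (2√3 - 3)/3 > 0.15`. Then
(1) for `ε > 0` and all large `n` the areas of `{u n > 0}` and of `{u n < 0}` are at least `c` times
the area of `{|u n| ≥ ε}`, minus `ε |Ω|`;
(2) for `ε > 0` and all large `n`, the areas of the sets where the linear combination `comb` of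
values of `u n` is positive, and where it is negative, are at least `c` times the area of the set
where its absolute value is at least `ε`, minus `ε |Ω|`;
(3) for every limit point `μ` of the local measures, every finite linear combination `ℓ` of values
and every event `A` which is invariant under translations up to `μ`-null sets,
`μ(A ∩ {ℓ > 0})` and `μ(A ∩ {ℓ < 0})` are at least `c μ(A ∩ {ℓ ≠ 0})`; and for `a < c` and `R → ∞`
the `μ`-probability that the wave `g(y) = ℓ(f(· + y))` is not identically zero and is positive, or
negative, on a proportion of at most `a` of the disc of radius `R` tends to zero. -/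
theorem result (Ω : Set ℂ) (hΩ : IsOpen Ω) (hb : Bornology.IsBounded Ω) (hne : Ω.Nonempty)
    (lam : ℕ → ℝ) (hpos : ∀ n, 0 < lam n) (hlam : Tendsto lam atTop atTop)
    (u : ℕ → ℂ → ℝ) (hu : ∀ n, ContDiffOn ℝ ∞ (u n) Ω)
    (heq : ∀ n, ∀ z ∈ Ω, lap (u n) z + lam n * u n z = 0)
    (hbd : BddL2 Ω u ∨ IsQuantumErgodic Ω lam u) :
    15 / 100 < c ∧
    (∀ ε : ℝ, 0 < ε → ∀ᶠ n in atTop,
      c * volume.real {z | z ∈ Ω ∧ ε ≤ |u n z|} - ε * volume.real Ω ≤
        volume.real {z | z ∈ Ω ∧ 0 < u n z} ∧
      c * volume.real {z | z ∈ Ω ∧ ε ≤ |u n z|} - ε * volume.real Ω ≤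
        volume.real {z | z ∈ Ω ∧ u n z < 0}) ∧
    ∀ χ : ℝ → ℝ, IsCutoff χ → ∀ (k : ℕ) (w : Fin k → ℂ) (t : Fin k → ℝ),
      (∀ ε : ℝ, 0 < ε → ∀ᶠ n in atTop,
        c * volume.real {z | z ∈ Ω ∧ ε ≤ |comb χ Ω (lam n) (u n) w t z|} - ε * volume.real Ω ≤
          volume.real {z | z ∈ Ω ∧ 0 < comb χ Ω (lam n) (u n) w t z} ∧
        c * volume.real {z | z ∈ Ω ∧ ε ≤ |comb χ Ω (lam n) (u n) w t z|} - ε * volume.real Ω ≤
          volume.real {z | z ∈ Ω ∧ comb χ Ω (lam n) (u n) w t z < 0}) ∧
      ∀ μ : Measure MW, IsProbabilityMeasure μ → IsLocalLimit χ Ω lam u μ →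
        (∀ A : Set MW, MeasurableSet A → (∀ x : ℂ, shift x ⁻¹' A =ᵐ[μ] A) →
          c * μ.real (A ∩ {f | lin w t f ≠ 0}) ≤ μ.real (A ∩ {f | 0 < lin w t f}) ∧
          c * μ.real (A ∩ {f | lin w t f ≠ 0}) ≤ μ.real (A ∩ {f | lin w t f < 0})) ∧
        ∀ a : ℝ, a < c → Tendsto (fun R : ℝ => μ {f : MW |
          (∃ y, ∑ j, t j * f (y + w j) ≠ 0) ∧ (pos R (fun y => ∑ j, t j * f (y + w j)) ≤ a ∨
            pos R (fun y => -∑ j, t j * f (y + w j)) ≤ a)}) atTop (𝓝 0) := by
  rcases hbd with ⟨C, hC⟩ | hqe
  · refine ⟨Pool.Agent.U26.SB.cst_gt, fun ε hε => Pool.Agent.U26.SG.planar_pt3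
      Pool.Agent.U26.SG.pl2 hΩ hb hne hpos hlam hu heq (fun n => (hC n).1) (fun n => (hC n).2) hε,
      fun χ hχ k w t => ⟨fun ε hε =>
      Pool.Agent.U26.SG.planar_all3 Pool.Agent.U26.SG.pl2 hΩ hb hne hpos hlam hu heq
        (fun n => (hC n).1) (fun n => (hC n).2) hχ w t hε,
      fun μ hp hμ => ?_⟩⟩
    obtain ⟨hst, hi2⟩ := Pool.Agent.U26.SG.lim_st Pool.Agent.U26.SG.pl2 hΩ hb hne hpos hlam hu heq
      (fun n => (hC n).1) (fun n => (hC n).2) hχ hμ
    exact ⟨fun A hA hinv => Pool.Agent.U26.SG.st_inv hst hi2 hA hinv w t,
      fun a ha => Pool.Agent.U26.SG.st_large hst hi2 w t ha⟩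
  · refine ⟨Pool.Agent.U26.SB.cst_gt, fun ε hε => Pool.Agent.U26.SG.planar_pt
      Pool.Agent.U26.SG.pl hΩ hb hne hpos hlam hu heq hqe hε, fun χ hχ k w t => ⟨fun ε hε =>
      Pool.Agent.U26.SG.planar_all Pool.Agent.U26.SG.pl hΩ hb hne hpos hlam hu heq hqe hχ w t hε,
      fun μ hp hμ => ?_⟩⟩
    have hex : Pool.Agent.U26.SG.Exh μ :=
      Pool.Agent.U26.SG.exh_planar hΩ hb hne hpos hlam hu heq hqe hχ hμ
    exact ⟨fun A hA hinv => Pool.Agent.U26.SG.inv_sign hex hA hinv w t,
      fun a ha => Pool.Agent.U26.SG.all_large2 hex w t ha⟩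

end Pool.Agent.Results.MP_6b977f_mp.SignBalance
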