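import Pool.Agent.U34.BW.Plane

/-!
# The random wave limit holds in plane domains after arbitrarily small perturbations (MP_6b977f_mp)

Let `Ω` be a bounded nonempty open set in the plane, `p` a uniformly distributed random point of `Ω`
(law `ProbabilityTheory.cond volume Ω`), and let `φ i` be real functions on `Ω` (extended by `0`),
orthonormal with respect to the normalised area, `0 ≤ lam 0 ≤ lam 1 ≤ ...`, with Weyl's law and the
local Weyl law on the scale of the wavelength in the interior of `Ω`, both with a remainder
`O(n ^ θ)`, `θ < 1` (`PlaneSystem`). For the eigenfunctions and eigenvalues of the Laplacian in a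
domain with a piecewise smooth boundary (`φ i = √|Ω|` times the normalised real eigenfunctions of the
Dirichlet, Neumann or Robin problem with `lam 0 ≥ 0`) these laws are known for every `θ > 1/2`,
whether the billiard is chaotic or not.

Let `D` be the operator with `D φ i = lam i φ i`, that is `-Δ`. For every `ε > 0`, `σ > θ` and every
sequence of points `z 0, z 1, ...` of the plane (for instance a dense sequence) there is a symmetric
operator `k` with `‖k a‖ ≤ ε ‖(1 + D) ^ σ a‖` such that `D + k` has a simple spectrum
`lam' 0 < lam' 1 < ...`, `|lam' j - lam j| ≤ ε`, and an orthonormal basis of eigenfunctions `v j` (real,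
finite combinations of the `φ i`, unique up to the signs), which all have the random wave as their
local limit, without exceptional subsequence: the joint law of the values
`v j (p + z a / √(lam' j))`, `a < N`, at the scale of the wavelength around the random point `p` tends
to the centred Gaussian law with the covariances `J₀(|z a - z b|)`, for all `N`. The same is true if
`p` is a random point of an arbitrary measurable part `A` of `Ω`.

Proof: the `φ i` are mixed in blocks of `N = 2 ^ m ≈ b ^ θ'` consecutive indices, `θ < θ' < σ`, by a
Hadamard matrix and signs. The mean over the signs of the characteristic function of the local field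
is `∫ ∏ cos(t · φ i / √N)`, which tends to the Gaussian one by the local Weyl law in the block;
Bessel's inequality gives that the discrete gradient with respect to the signs is `O(N ^ (-1/2))`,
and so (Efron-Stein, fourth moments) there are signs which are good for all `j` in the block, all
rational parameters and all sets `A` of a countable dense family at the same time.
-/

set_option autoImplicit false

open MeasureTheory Filter Topology ProbabilityTheory
open scoped BoundedContinuousFunction
open Pool.Agent.U34.BW

namespace Pool.Agent.Results.MP_6b977f_mp.SmallPerturbations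

/-- **Berry's random wave conjecture in plane domains after arbitrarily small perturbations.** -/
theorem result (Ω : Set Pl) (φ : ℕ → Pl → ℝ) (lam : ℕ → ℝ) (θ : ℝ) (hθ0 : 0 ≤ θ) (hθ1 : θ < 1)
    (h : PlaneSystem Ω φ lam θ) (σ ε : ℝ) (hσ : θ < σ) (hε : 0 < ε) (z : ℕ → Pl) :
    (∀ N, (Matrix.of fun a b : Fin N => J0 ‖z a - z b‖).PosSemidef) ∧
    ∃ (k u : ℕ → ℕ → ℝ) (I : ℕ → Finset ℕ) (lam' : ℕ → ℝ), Perturb lam ε σ k u I lam' ∧
      ∀ e : ℕ → ℝ, (∀ j, e j = 1 ∨ e j = -1) → ∀ A : Set Pl, MeasurableSet A →
        ∀ (N : ℕ) (G : EuclideanSpace ℝ (Fin N) →ᵇ ℝ),
        Tendsto (fun j => ∫ p in A, G (WithLp.toLp 2 fun a : Fin N =>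
            e j * ∑ i ∈ I j, u j i * φ i (p + (Real.sqrt (lam' j))⁻¹ • z a))
            ∂(ProbabilityTheory.cond volume Ω)) atTop
          (𝓝 ((ProbabilityTheory.cond volume Ω).real A *
            ∫ y, G y ∂(multivariateGaussian 0 (Matrix.of fun a b : Fin N => J0 ‖z a - z b‖)))) :=
  plane hθ0 hθ1 hσ hε h z

end Pool.Agent.Results.MP_6b977f_mp.SmallPerturbations
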